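import Mathlib
import Pool.Agent.Q95.GaussMult

set_option autoImplicit false

open Finset MeasureTheory

namespace Pool.Agent.Q178.ET

/-- Gauss multiplication formula in the form `Pool.Agent.Q127.ET.S_Gam` (unfolded) -/
theorem gam : ∀ d : ℕ, 1 ≤ d → ∃ C₀ : ℝ, 0 < C₀ ∧ ∀ s : ℂ, (∀ n : ℕ, ((d : ℝ) / 2 : ℂ) * s + 1 / 4 ≠ -(n : ℂ)) →
  ∏ j ∈ range d, Complex.Gamma ((s + (((4 * j + 1 : ℝ) / (2 * d) : ℝ) : ℂ)) / 2) =
    (C₀ : ℂ) * (d : ℂ) ^ (-((d : ℂ) / 2 * s)) * Complex.Gamma (((d : ℝ) / 2 : ℂ) * s + 1 / 4) := by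
  intro d hd
  have hd0 : (0 : ℝ) < d := by exact_mod_cast hd
  have hdC : (d : ℂ) ≠ 0 := by exact_mod_cast (by omega : d ≠ 0)
  refine ⟨(∏ k ∈ range d, Real.Gamma (1 / d + k / d)) * (d : ℝ) ^ (3 / 4 : ℝ), ?_, ?_⟩
  · refine mul_pos (Finset.prod_pos fun k _ => Real.Gamma_pos_of_pos (by positivity)) (Real.rpow_pos_of_pos hd0 _)
  · intro s hs
    have h1 : ∀ k : ℕ, (d : ℂ) * (s / 2 + 1 / (4 * d)) ≠ -k := by
      intro k h
      apply hs k
      rw [← h]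
      push_cast
      field_simp
    have h2 : ∀ k : ℕ, (d : ℂ) * (1 / d) ≠ -k := by
      intro k h
      rw [mul_one_div_cancel hdC] at h
      have : ((k + 1 : ℕ) : ℂ) = 0 := by push_cast; linear_combination h
      exact absurd this (by exact_mod_cast Nat.succ_ne_zero k)
    have h := Q95.GM.indep d (by omega) (s / 2 + 1 / (4 * d)) (1 / d) h1 h2
    have hG0 : Complex.Gamma (d * (s / 2 + 1 / (4 * d))) ≠ 0 := Complex.Gamma_ne_zero h1
    rw [mul_one_div_cancel hdC, Complex.Gamma_one, div_one, Complex.cpow_one, div_eq_iff hG0] at h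
    have e1 : (d : ℂ) * (s / 2 + 1 / (4 * d)) = (d : ℂ) / 2 * s + 1 / 4 := by
      field_simp
    rw [e1] at h
    have e2 : ∏ j ∈ range d, Complex.Gamma ((s + (((4 * j + 1 : ℝ) / (2 * d) : ℝ) : ℂ)) / 2) =
        ∏ k ∈ range d, Complex.Gamma (s / 2 + 1 / (4 * d) + k / d) := by
      refine Finset.prod_congr rfl fun j _ => ?_
      congr 1
      push_cast
      field_simp
      ring
    rw [e2]
    have e3 : (d : ℂ) ^ ((d : ℂ) / 2 * s + 1 / 4) = (d : ℂ) ^ ((d : ℂ) / 2 * s) * (d : ℂ) ^ (1 / 4 : ℂ) :=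
      Complex.cpow_add _ _ hdC
    have e4 : (d : ℂ) ^ ((d : ℂ) / 2 * s) ≠ 0 := by
      rw [Ne, Complex.cpow_eq_zero_iff]; tauto
    have e5 : (d : ℂ) ^ (1 / 4 : ℂ) ≠ 0 := by
      rw [Ne, Complex.cpow_eq_zero_iff]; tauto
    have e6 : (d : ℂ) ^ (1 / 4 : ℂ) * (d : ℂ) ^ (3 / 4 : ℂ) = d := by
      rw [← Complex.cpow_add _ _ hdC]; norm_num
    have e7 : (((d : ℝ) ^ (3 / 4 : ℝ) : ℝ) : ℂ) = (d : ℂ) ^ (3 / 4 : ℂ) := by
      rw [Complex.ofReal_cpow hd0.le]; push_cast; rfl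
    have e8 : ((∏ k ∈ range d, Real.Gamma (1 / d + k / d) : ℝ) : ℂ) =
        ∏ k ∈ range d, Complex.Gamma (1 / d + k / d) := by
      push_cast
      refine Finset.prod_congr rfl fun k _ => ?_
      rw [← Complex.Gamma_ofReal]
      push_cast
      rfl
    rw [e3] at h
    rw [Complex.ofReal_mul, e8, e7, Complex.cpow_neg]
    have e9 : ((d : ℝ) : ℂ) / 2 = (d : ℂ) / 2 := by push_cast; rfl
    rw [e9]
    generalize ∏ k ∈ range d, Complex.Gamma (s / 2 + 1 / (4 * d) + k / d) = X at *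
    generalize ∏ k ∈ range d, Complex.Gamma (1 / d + k / d) = Y at *
    generalize Complex.Gamma ((d : ℂ) / 2 * s + 1 / 4) = Z at *
    generalize (d : ℂ) ^ ((d : ℂ) / 2 * s) = u at *
    generalize (d : ℂ) ^ (1 / 4 : ℂ) = v at *
    generalize (d : ℂ) ^ (3 / 4 : ℂ) = w at *
    field_simp
    have : (X * u) * v = (Y * w * Z) * v := by
      rw [mul_assoc X, h, ← e6]; ring
    exact mul_right_cancel₀ e5 this

end Pool.Agent.Q178.ET
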